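import Pool.Agent.Q84.QQ.Smooth
import Pool.Agent.Y233.Cd.F

set_option autoImplicit false

open MvPolynomial Pool.Agent.Helper346.Cd Pool.Agent.Y233.Cd

namespace Pool.Agent.Q84.QQ

/-- The value of the polar part. -/
def pol {A : Type*} [CommRing A] (x : Fin 6 → A) : A := x 0 * x 1 + x 2 * x 3 + x 4 * x 5

theorem place {κ E l : Type*} [Field κ] [Field E] [Field l]
    [Algebra κ l] (a : Fin 6 → κ)
    (ha : ∀ z : Fin 6 → l, ∑ i, algebraMap κ l (a i) * z i ^ 2 = 0 → z = 0)
    (ι : κ →+* E) (c : E) (O : ValuationSubring E) (r : O →+* l)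
    (hι : ∀ a : κ, ∃ h : ι a ∈ O, r ⟨ι a, h⟩ = algebraMap κ l a)
    (hc : ∃ h : c ∈ O, r ⟨c, h⟩ = 0) (x : Fin 6 → E) (hx : x ≠ 0) :
    ∑ i, ι (a i) * x i ^ 2 + c * pol x ≠ 0 := by
  intro hsum
  obtain ⟨i0, -, hmax⟩ := Finset.exists_max_image (Finset.univ : Finset (Fin 6))
    (fun i => O.valuation (x i)) Finset.univ_nonempty
  have hx0 : x i0 ≠ 0 := by
    intro h0
    apply hx
    funext i
    have h1 := hmax i (Finset.mem_univ i)
    rw [h0, map_zero, le_zero_iff, map_eq_zero] at h1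
    exact h1
  have hy : ∀ i, x i / x i0 ∈ O := by
    intro i
    rw [← O.valuation_le_one_iff, map_div₀]
    have hv : O.valuation (x i0) ≠ 0 := (map_ne_zero _).2 hx0
    exact (div_le_one₀ (zero_lt_iff.2 hv)).2 (hmax i (Finset.mem_univ i))
  choose hιO hιr using hι
  obtain ⟨hcO, hcr⟩ := hc
  have hO : ∑ i, (⟨ι (a i), hιO (a i)⟩ : O) * (⟨x i / x i0, hy i⟩ : O) ^ 2 +
      (⟨c, hcO⟩ : O) * pol (fun i => (⟨x i / x i0, hy i⟩ : O)) = 0 := by
    apply Subtype.ext
    have h1 : ∑ i, ι (a i) * (x i / x i0) ^ 2 = (∑ i, ι (a i) * x i ^ 2) / x i0 ^ 2 := by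
      rw [Finset.sum_div]
      apply Finset.sum_congr rfl
      intro i _
      rw [div_pow, mul_div_assoc]
    have h2 : pol (fun i => x i / x i0) = pol x / x i0 ^ 2 := by
      unfold pol
      field_simp
    have h3 : ∑ i, ι (a i) * (x i / x i0) ^ 2 + c * pol (fun i => x i / x i0) = 0 := by
      rw [h1, h2, mul_div_assoc', ← add_div, hsum, zero_div]
    have h4 : ((∑ i, (⟨ι (a i), hιO (a i)⟩ : O) * (⟨x i / x i0, hy i⟩ : O) ^ 2 +
      (⟨c, hcO⟩ : O) * pol (fun i => (⟨x i / x i0, hy i⟩ : O)) : O) : E) =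
      ∑ i, ι (a i) * (x i / x i0) ^ 2 + c * pol (fun i => x i / x i0) := by
      unfold pol
      push_cast
      rfl
    rw [h4, h3]
    rfl
  have hr0 := congrArg r hO
  simp only [map_add, map_sum, map_mul, map_pow, map_zero, hcr, zero_mul, add_zero, hιr] at hr0
  have hz := ha (fun i => r ⟨x i / x i0, hy i⟩) hr0
  have h1 := congrFun hz i0
  have h2 : (⟨x i0 / x i0, hy i0⟩ : O) = 1 := by
    apply Subtype.ext
    exact div_self hx0
  simp only [h2, map_one, Pi.zero_apply] at h1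
  exact one_ne_zero h1

theorem no_point {κ K Ω : Type} [Field κ] [CharP κ 2] [Field K]
    [Field Ω] [Algebra (Polynomial κ) K] [IsFractionRing (Polynomial κ) K] [Algebra K Ω]
    [Algebra.IsSeparable K Ω] (E : IntermediateField K Ω)
    (hE : ∀ T : IntermediateField K Ω, T ≤ E → FiniteDimensional K T → ¬ 2 ∣ Module.finrank K T)
    (a : Fin 6 → κ) (ha : ∀ y : Fin 6 → κ, ∑ i, a i * y i ^ 2 = 0 → y = 0)
    (x : Fin 6 → E) (hx : x ≠ 0) :
    ∑ i, algebraMap K E (algebraMap (Polynomial κ) K (Polynomial.C (a i))) * x i ^ 2 +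
      algebraMap K E (algebraMap (Polynomial κ) K Polynomial.X) * pol x ≠ 0 := by
  intro hsum
  have : Fact (Nat.Prime 2) := ⟨Nat.prime_two⟩
  let T : IntermediateField K Ω := IntermediateField.adjoin K (Set.range fun i => (x i : Ω))
  have hTE : T ≤ E := by
    rw [IntermediateField.adjoin_le_iff]
    rintro _ ⟨i, rfl⟩
    exact (x i).2
  have hfd : FiniteDimensional K T := by
    have : Finite (Set.range fun i => (x i : Ω)) := Set.finite_range _
    exact IntermediateField.finiteDimensional_adjoin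
      (fun y _ => Algebra.IsIntegral.isIntegral y)
  have hdeg := hE T hTE hfd
  have hTsep : Algebra.IsSeparable K T := Algebra.isSeparable_tower_bot_of_isSeparable K T Ω
  let ι : κ →+* T := (algebraMap K T).comp ((algebraMap (Polynomial κ) K).comp Polynomial.C)
  let c : T := algebraMap K T (algebraMap (Polynomial κ) K Polynomial.X)
  obtain ⟨O, l, _, _, r, ⟨hlfd, hldeg⟩, -, hι, hc⟩ := exists_good_place_of (κ := κ) (E := T) K
    2 hdeg ι c (fun a => rfl) rfl
  have hres : ∀ z : Fin 6 → l, ∑ i, algebraMap κ l (a i) * z i ^ 2 = 0 → z = 0 := by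
    intro z hz
    refine aniso_res (p := 2) (κ := κ) (l := l) a ha 1 0 2 (by norm_num) (by norm_num)
      (by norm_num) (by simpa using hldeg) z ?_
    simpa using hz
  let w : Fin 6 → T := fun j => ⟨x j, IntermediateField.subset_adjoin K _ ⟨j, rfl⟩⟩
  have hw : w ≠ 0 := by
    intro h0
    apply hx
    funext j
    apply Subtype.ext
    exact congrArg (fun t : T => (t : Ω)) (congrFun h0 j)
  refine place a hres ι c O r hι hc w hw ?_
  apply Subtype.ext
  have := congrArg (fun t : E => (t : Ω)) hsum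
  simpa [w, ι, c, pol] using this

end Pool.Agent.Q84.QQ
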