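import Pool.Agent.Helper346.Cd.Defs

set_option autoImplicit false

open MvPolynomial Pool.Agent.Helper346.Cd

namespace Pool.Agent.Q84.QQ

/-- The topological group `G` has cohomological dimension exactly one: `H^q(G, M) = 0` for all
`q ≥ 2` and all discrete torsion `G`-modules `M`, and `H^1(G, M) ≠ 0` for some finite discrete
`G`-module `M`. -/
def CdEqOne (G : Type) [Group G] [TopologicalSpace G] : Prop :=
  CdLeOne G ∧ ∃ (M : Type) (_ : AddCommGroup M) (_ : DistribMulAction G M), Finite M ∧
    IsDiscreteModule G M ∧ ¬ HSuccVanishes G M 0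

/-- `f = g = 0` is a smooth complete intersection in `ℙⁿ` over `k` (Jacobian criterion): at every
geometric common zero of `f` and `g` the gradients of `f` and `g` are linearly independent. -/
def IsSmoothIntersection {k : Type*} [Field k] {n : ℕ} (f g : MvPolynomial (Fin (n + 1)) k) :
    Prop :=
  ∀ x : Fin (n + 1) → AlgebraicClosure k, x ≠ 0 → aeval x f = 0 → aeval x g = 0 →
    LinearIndependent (AlgebraicClosure k)
      ![fun i => aeval x (pderiv i f), fun i => aeval x (pderiv i g)]

/-- The binary form `a xᵢ² + b xⱼ² + c xᵢ xⱼ`. -/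
noncomputable def bin {k : Type*} [Field k] (a b c : k) (i j : Fin 6) : MvPolynomial (Fin 6) k :=
  C a * X i ^ 2 + C b * X j ^ 2 + C c * (X i * X j)

/-- The first quadratic form. -/
noncomputable def formF {k : Type*} [Field k] (a : Fin 6 → k) (c : k) : MvPolynomial (Fin 6) k :=
  bin (a 0) (a 1) c 0 1 + bin (a 2) (a 3) c 2 3 + bin (a 4) (a 5) c 4 5

/-- The second quadratic form. -/
noncomputable def formG {k : Type*} [Field k] (a : Fin 6 → k) (c : k) : MvPolynomial (Fin 6) k :=
  bin (a 2) (a 3) c 2 3 + C c * bin (a 4) (a 5) c 4 5 + (X 0 ^ 2 + X 2 ^ 2 + X 4 ^ 2)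

end Pool.Agent.Q84.QQ
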