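import Pool.Agent.Q84.QQ.Aniso

set_option autoImplicit false

open MvPolynomial Pool.Agent.Helper346.Cd Pool.Agent.Y233.Cd

namespace Pool.Agent.Q84.QQ

/-- A field of characteristic two with a separable quadratic extension has a nonzero `H^1` with
coefficients in the group of order two. -/
theorem h1_ne_zero {k K : Type} [Field k] [Field K] [Algebra k K] [IsGalois k K] [IsSepClosed K]
    [CharP k 2] (a b c : k) (hc : c ≠ 0) (ha : a ≠ 0)
    (hroot : ∀ t : k, a * t ^ 2 + c * t + b ≠ 0) :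
    ∃ (M : Type) (_ : AddCommGroup M) (_ : DistribMulAction Gal(K/k) M), Finite M ∧
      IsDiscreteModule Gal(K/k) M ∧ ¬ HSuccVanishes Gal(K/k) M 0 := by
  classical
  have hchar : CharP K 2 := charP_of_injective_algebraMap (algebraMap k K).injective 2
  have h2 : (2 : K) = 0 := CharTwo.two_eq_zero
  let act : DistribMulAction Gal(K/k) (ZMod 2) :=
    { smul := fun _ n => n
      one_smul := fun _ => rfl
      mul_smul := fun _ _ _ => rfl
      smul_zero := fun _ => rfl
      smul_add := fun _ _ _ => rfl }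
  have htriv : ∀ (g : Gal(K/k)) (n : ZMod 2), g • n = n := fun _ _ => rfl
  refine ⟨ZMod 2, inferInstance, act, inferInstance, ?_, ?_⟩
  · intro m
    have : {g : Gal(K/k) | g • m = m} = Set.univ := Set.eq_univ_of_forall fun g => htriv g m
    rw [this]
    exact isOpen_univ
  intro hvan
  set A := algebraMap k K a with hA
  set B := algebraMap k K b with hB
  set C := algebraMap k K c with hC
  have hA0 : A ≠ 0 := by rw [hA]; simpa using ha
  have hC0 : C ≠ 0 := by rw [hC]; simpa using hc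
  obtain ⟨r, hr⟩ := IsSepClosed.exists_root_C_mul_X_pow_add_C_mul_X_add_C' (k := K) 2 2
    A C B (dvd_refl 2) le_rfl hC0
  set d : K := C / A with hd
  have hd0 : d ≠ 0 := div_ne_zero hC0 hA0
  have hdσ : ∀ σ : Gal(K/k), σ d = d := by
    intro σ
    rw [hd, map_div₀, hC, hA, AlgEquiv.commutes, AlgEquiv.commutes]
  have hσ : ∀ σ : Gal(K/k), σ r = r ∨ σ r = r + d := by
    intro σ
    have h1 : A * (σ r) ^ 2 + C * σ r + B = 0 := by
      have := congrArg σ hr
      simpa [hA, hB, hC] using this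
    have h3 : (σ r - r) * (σ r - (r + d)) = 0 := by
      have h4 : A * ((σ r - r) * (σ r - (r + d))) = 0 := by
        have h5 : A * d = C := by rw [hd]; field_simp
        have h6 : A * ((σ r - r) * (σ r - (r + d))) =
          A * (σ r) ^ 2 + A * r ^ 2 - (A * d) * (σ r) + (A * d) * r - 2 * (A * r * σ r) := by ring
        rw [h6, h5]
        linear_combination h1 + hr - (B + C * σ r + A * r * σ r) * h2
      exact (mul_eq_zero.1 h4).resolve_left hA0
    rcases mul_eq_zero.1 h3 with h | h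
    · exact Or.inl (sub_eq_zero.1 h)
    · exact Or.inr (sub_eq_zero.1 h)
  have hrd : r + d ≠ r := by
    intro h
    exact hd0 (by simpa using h)
  let χ : Gal(K/k) → ZMod 2 := fun σ => if σ r = r then 0 else 1
  have hχ0 : ∀ σ : Gal(K/k), σ r = r → χ σ = 0 := fun σ h => if_pos h
  have hχ1 : ∀ σ : Gal(K/k), σ r = r + d → χ σ = 1 := fun σ h =>
    if_neg (fun h' => hrd (h.symm.trans h'))
  have hmul : ∀ σ τ : Gal(K/k), χ (σ * τ) = χ σ + χ τ := by
    intro σ τ
    rcases hσ τ with ht | ht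
    · rcases hσ σ with hs | hs
      · rw [hχ0 τ ht, hχ0 σ hs, hχ0 _ (by rw [AlgEquiv.mul_apply, ht, hs]), add_zero]
      · rw [hχ0 τ ht, hχ1 σ hs, hχ1 _ (by rw [AlgEquiv.mul_apply, ht, hs]), add_zero]
    · rcases hσ σ with hs | hs
      · rw [hχ1 τ ht, hχ0 σ hs, hχ1 _ (by rw [AlgEquiv.mul_apply, ht, map_add, hs, hdσ]),
          zero_add]
      · have : (1 : ZMod 2) + 1 = 0 := by decide
        rw [hχ1 τ ht, hχ1 σ hs, this]
        apply hχ0
        rw [AlgEquiv.mul_apply, ht, map_add, hs, hdσ]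
        linear_combination d * h2
  have hloc : IsLocallyConstant χ := by
    rw [IsLocallyConstant.iff_eventually_eq]
    intro x
    have h1 := stabilizer_isOpen_of_isIntegral (K := k) (L := K) r
    have h2 : Continuous (fun y : Gal(K/k) => x⁻¹ * y) := by fun_prop
    have h3 := (h1.preimage h2).mem_nhds (x := x) (by simp)
    filter_upwards [h3] with y hy
    have h4 : (x⁻¹ * y) • r = r := hy
    rw [mul_smul, inv_smul_eq_iff] at h4
    have h5 : y r = x r := h4
    show (if y r = r then (0 : ZMod 2) else 1) = if x r = r then 0 else 1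
    rw [h5]
  have hcoch : IsCochain (M := ZMod 2) 1 (fun x : Fin (1 + 1) → Gal(K/k) => χ ((x 0)⁻¹ * x 1)) := by
    constructor
    · have hcont : Continuous (fun x : Fin (1 + 1) → Gal(K/k) => (x 0)⁻¹ * x 1) := by fun_prop
      exact hloc.comp_continuous hcont
    · intro g x
      show χ ((g * x 0)⁻¹ * (g * x 1)) = χ ((x 0)⁻¹ * x 1)
      congr 1
      group
  have hcoc : diff (G := Gal(K/k)) 1
      (fun x : Fin (1 + 1) → Gal(K/k) => χ ((x 0)⁻¹ * x 1)) = 0 := by
    funext x
    have h1 : χ ((x 0)⁻¹ * x 2) = χ ((x 0)⁻¹ * x 1) + χ ((x 1)⁻¹ * x 2) := by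
      rw [← hmul]
      congr 1
      group
    show ∑ j : Fin 3, (-1 : ℤ) ^ (j : ℕ) • χ ((x (j.succAbove 0))⁻¹ * x (j.succAbove 1)) = 0
    rw [Fin.sum_univ_three]
    show (-1 : ℤ) ^ 0 • χ ((x 1)⁻¹ * x 2) + (-1 : ℤ) ^ 1 • χ ((x 0)⁻¹ * x 2) +
      (-1 : ℤ) ^ 2 • χ ((x 0)⁻¹ * x 1) = 0
    rw [h1]
    have key : ∀ u v : ZMod 2, (-1 : ℤ) ^ 0 • v + (-1 : ℤ) ^ 1 • (u + v) + (-1 : ℤ) ^ 2 • u = 0 := by
      decide
    exact key _ _
  obtain ⟨g, hg, hdg⟩ := hvan _ hcoch hcoc
  have hconst : ∀ x : Fin (0 + 1) → Gal(K/k), g x = g (fun _ => 1) := by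
    intro x
    have h1 := hg.2 (x 0) (fun _ => 1)
    rw [htriv] at h1
    rw [← h1]
    congr 1
    funext i
    rw [mul_one]
    congr 1
    exact (Subsingleton.elim (α := Fin 1) _ _)
  have hχz : ∀ σ : Gal(K/k), χ σ = 0 := by
    intro σ
    have h1 := congrFun hdg ![1, σ]
    have h3 : χ (((![1, σ] : Fin 2 → Gal(K/k)) 0)⁻¹ * (![1, σ] : Fin 2 → Gal(K/k)) 1) = χ σ := by
      simp
    have h4 : diff 0 g ![1, σ] = 0 := by
      show ∑ j : Fin 2, (-1 : ℤ) ^ (j : ℕ) •
        g (fun i => (![1, σ] : Fin 2 → Gal(K/k)) (j.succAbove i)) = 0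
      rw [Fin.sum_univ_two, hconst, hconst (fun i => (![1, σ] : Fin 2 → Gal(K/k))
        (Fin.succAbove 1 i))]
      have key : ∀ v : ZMod 2, (-1 : ℤ) ^ 0 • v + (-1 : ℤ) ^ 1 • v = 0 := by decide
      exact key _
    rw [← h3]
    exact h1.symm.trans h4
  have hfix : ∀ σ : Gal(K/k), σ r = r := by
    intro σ
    rcases hσ σ with h | h
    · exact h
    · have h1 := hχz σ
      rw [hχ1 σ h] at h1
      exact absurd h1 (by decide)
  have hmem : r ∈ Set.range (algebraMap k K) := (InfiniteGalois.mem_range_algebraMap_iff_fixed r).2 hfix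
  obtain ⟨t, ht⟩ := hmem
  apply hroot t
  apply (algebraMap k K).injective
  rw [map_zero, ← hr, ← ht]
  simp [hA, hB, hC]

theorem cdEqOne_of {k : Type} [Field k] [CharP k 2] (h : CdLeOne Gal(SeparableClosure k/k))
    (a b c : k) (hc : c ≠ 0) (ha : a ≠ 0) (hroot : ∀ t : k, a * t ^ 2 + c * t + b ≠ 0) :
    CdEqOne Gal(SeparableClosure k/k) :=
  ⟨h, h1_ne_zero a b c hc ha hroot⟩

theorem formF_eval {k : Type*} [Field k] (a : Fin 6 → k) (c : k) (x : Fin 6 → k) :
    eval x (formF a c) = ∑ i, a i * x i ^ 2 + c * pol x := by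
  simp only [formF, bin, map_add, map_mul, map_pow, eval_C, eval_X, pol, Fin.sum_univ_six]
  ring

theorem formF_eval_special {k : Type*} [Field k] (a : Fin 6 → k) (c t : k) :
    eval ![t, 1, 0, 0, 0, 0] (formF a c) = a 0 * t ^ 2 + c * t + a 1 := by
  rw [formF_eval, Fin.sum_univ_six]
  simp [pol]
  ring

/-- Every field of characteristic two has an extension field of cohomological dimension one with a
smooth complete intersection of two quadrics in `ℙ⁵` without rational point. -/
theorem main (k₀ : Type) [Field k₀] [CharP k₀ 2] :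
    ∃ (k : Type) (_ : Field k) (_ : Algebra k₀ k), CdEqOne Gal(SeparableClosure k/k) ∧
      ∃ f g : MvPolynomial (Fin (5 + 1)) k, f.IsHomogeneous 2 ∧ g.IsHomogeneous 2 ∧
        IsSmoothIntersection f g ∧
        ¬ ∃ x : Fin (5 + 1) → k, x ≠ 0 ∧ eval x f = 0 ∧ eval x g = 0 := by
  have : Fact (Nat.Prime 2) := ⟨Nat.prime_two⟩
  let κ := FractionRing (MvPolynomial ℕ k₀)
  let K0 := FractionRing (Polynomial κ)
  have : CharP κ 2 :=
    charP_of_injective_algebraMap (IsFractionRing.injective (MvPolynomial ℕ k₀) κ) 2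
  have : CharP K0 2 :=
    charP_of_injective_algebraMap (IsFractionRing.injective (Polynomial κ) K0) 2
  obtain ⟨E, hE1, hE2⟩ := exists_maximal_prime_to 2 Nat.prime_two K0 (SeparableClosure K0)
  have : CharP E 2 := charP_of_injective_algebraMap (algebraMap K0 E).injective 2
  let toE : k₀ →+* E := (algebraMap K0 E).comp ((algebraMap (Polynomial κ) K0).comp
    (Polynomial.C.comp ((algebraMap (MvPolynomial ℕ k₀) κ).comp MvPolynomial.C)))
  let a : Fin 6 → κ := fun i => algebraMap (MvPolynomial ℕ k₀) κ (X (i : ℕ))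
  let A : Fin 6 → E :=
    fun i => algebraMap K0 E (algebraMap (Polynomial κ) K0 (Polynomial.C (a i)))
  let c : E := algebraMap K0 E (algebraMap (Polynomial κ) K0 Polynomial.X)
  have hinj : Function.Injective (fun P : Polynomial κ =>
      algebraMap K0 E (algebraMap (Polynomial κ) K0 P)) :=
    (algebraMap K0 E).injective.comp (IsFractionRing.injective (Polynomial κ) K0)
  have hc0 : c ≠ 0 := by
    intro h
    have : c = algebraMap K0 E (algebraMap (Polynomial κ) K0 0) := by rw [h]; simp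
    exact Polynomial.X_ne_zero (hinj this)
  have hc1 : c ≠ 1 := by
    intro h
    have : c = algebraMap K0 E (algebraMap (Polynomial κ) K0 1) := by rw [h]; simp
    have h1 : (Polynomial.X : Polynomial κ) = 1 := hinj this
    have h2 := congrArg (Polynomial.eval 0) h1
    simp at h2
  have hA : ∀ i, A i ≠ 0 := by
    intro i h
    have h1 : A i = algebraMap K0 E (algebraMap (Polynomial κ) K0 0) := by rw [h]; simp
    have h2 : a i = 0 := Polynomial.C_eq_zero.1 (hinj h1)
    have h3 := (map_eq_zero_iff _ (IsFractionRing.injective (MvPolynomial ℕ k₀) κ)).1 h2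
    exact MvPolynomial.X_ne_zero _ h3
  have hno : ∀ x : Fin 6 → E, x ≠ 0 → eval x (formF A c) ≠ 0 := by
    intro x hx h
    refine no_point E hE1 a (indep_pow 2 k₀ 5) x hx ?_
    rw [formF_eval] at h
    exact h
  refine ⟨E, inferInstance, toE.toAlgebra,
    cdEqOne_of (cdLeOne_of (p := 2) hE2) (A 0) (A 1) c hc0 (hA 0) ?_, formF A c, formG A c,
    formF_homogeneous A c, formG_homogeneous A c, smooth A c hA hc0 hc1, ?_⟩
  · intro t ht
    refine hno ![t, 1, 0, 0, 0, 0] ?_ ?_
    · intro h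
      have := congrFun h 1
      simp at this
    · rw [formF_eval_special]
      exact ht
  · rintro ⟨x, hx, hf, -⟩
    exact hno x hx hf

end Pool.Agent.Q84.QQ
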