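import Pool.Agent.Q84.QQ.Defs

set_option autoImplicit false

open MvPolynomial Pool.Agent.Helper346.Cd

namespace Pool.Agent.Q84.QQ

theorem bin_homogeneous {k : Type*} [Field k] (a b c : k) (i j : Fin 6) :
    (bin a b c i j).IsHomogeneous 2 := by
  unfold bin
  refine ((?_ : IsHomogeneous _ 2).add ?_).add ?_
  · simpa using (isHomogeneous_C (Fin 6) a).mul ((isHomogeneous_X k i).pow 2)
  · simpa using (isHomogeneous_C (Fin 6) b).mul ((isHomogeneous_X k j).pow 2)
  · simpa using (isHomogeneous_C (Fin 6) c).mul ((isHomogeneous_X k i).mul (isHomogeneous_X k j))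

theorem formF_homogeneous {k : Type*} [Field k] (a : Fin 6 → k) (c : k) :
    (formF a c).IsHomogeneous 2 :=
  ((bin_homogeneous _ _ _ _ _).add (bin_homogeneous _ _ _ _ _)).add (bin_homogeneous _ _ _ _ _)

theorem formG_homogeneous {k : Type*} [Field k] (a : Fin 6 → k) (c : k) :
    (formG a c).IsHomogeneous 2 := by
  refine ((bin_homogeneous _ _ _ _ _).add ?_).add ?_
  · simpa using (isHomogeneous_C (Fin 6) c).mul (bin_homogeneous (a 4) (a 5) c 4 5)
  · refine ((?_ : IsHomogeneous _ 2).add ?_).add ?_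
    · simpa using (isHomogeneous_X k (0 : Fin 6)).pow 2
    · simpa using (isHomogeneous_X k (2 : Fin 6)).pow 2
    · simpa using (isHomogeneous_X k (4 : Fin 6)).pow 2

theorem formF_aeval {k A : Type*} [Field k] [CommRing A] [Algebra k A] (a : Fin 6 → k) (c : k)
    (x : Fin 6 → A) : aeval x (formF a c) =
      (algebraMap k A (a 0) * x 0 ^ 2 + algebraMap k A (a 1) * x 1 ^ 2 +
        algebraMap k A c * (x 0 * x 1)) +
      (algebraMap k A (a 2) * x 2 ^ 2 + algebraMap k A (a 3) * x 3 ^ 2 +
        algebraMap k A c * (x 2 * x 3)) +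
      (algebraMap k A (a 4) * x 4 ^ 2 + algebraMap k A (a 5) * x 5 ^ 2 +
        algebraMap k A c * (x 4 * x 5)) := by
  simp [formF, bin]

theorem formG_aeval {k A : Type*} [Field k] [CommRing A] [Algebra k A] (a : Fin 6 → k) (c : k)
    (x : Fin 6 → A) : aeval x (formG a c) =
      (algebraMap k A (a 2) * x 2 ^ 2 + algebraMap k A (a 3) * x 3 ^ 2 +
        algebraMap k A c * (x 2 * x 3)) +
      algebraMap k A c * (algebraMap k A (a 4) * x 4 ^ 2 + algebraMap k A (a 5) * x 5 ^ 2 +
        algebraMap k A c * (x 4 * x 5)) + (x 0 ^ 2 + x 2 ^ 2 + x 4 ^ 2) := by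
  simp [formG, bin]

theorem smooth {k : Type*} [Field k] [CharP k 2] (a : Fin 6 → k) (c : k) (ha : ∀ i, a i ≠ 0)
    (hc0 : c ≠ 0) (hc1 : c ≠ 1) : IsSmoothIntersection (n := 5) (formF a c) (formG a c) := by
  intro x hx hf hg
  have hchar : CharP (AlgebraicClosure k) 2 :=
    charP_of_injective_algebraMap (algebraMap k (AlgebraicClosure k)).injective 2
  have h2 : (2 : AlgebraicClosure k) = 0 := CharTwo.two_eq_zero
  rw [formF_aeval] at hf
  rw [formG_aeval] at hg
  set γ := algebraMap k (AlgebraicClosure k) c with hγ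
  have hγ0 : γ ≠ 0 := by rw [hγ]; simpa using hc0
  have hγ1 : γ ≠ 1 := by
    intro h
    apply hc1
    apply (algebraMap k (AlgebraicClosure k)).injective
    rw [← hγ, h, map_one]
  have hα : ∀ i, algebraMap k (AlgebraicClosure k) (a i) ≠ 0 := fun i => by simpa using ha i
  rw [LinearIndependent.pair_iff]
  intro s t hst
  have h := fun i => congrFun hst i
  have h0 := h 0
  have h1 := h 1
  have h2' := h 2
  have h3 := h 3
  have h4 := h 4
  have h5 := h 5
  simp [formF, formG, bin, pderiv_X, Pi.single_apply, Derivation.leibniz, Derivation.leibniz_pow,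
    h2, ← hγ] at h0 h1 h2' h3 h4 h5
  have e0 : s * x 1 = 0 := by
    rcases h0 with h | h | h
    · rw [h, zero_mul]
    · exact absurd h hγ0
    · rw [h, mul_zero]
  have e1 : s * x 0 = 0 := by
    rcases h1 with h | h | h
    · rw [h, zero_mul]
    · exact absurd h hγ0
    · rw [h, mul_zero]
  have e2 : (s + t) * x 3 = 0 := by
    apply mul_left_cancel₀ hγ0
    linear_combination h2'
  have e3 : (s + t) * x 2 = 0 := by
    apply mul_left_cancel₀ hγ0
    linear_combination h3
  have e4 : (s + t * γ) * x 5 = 0 := by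
    apply mul_left_cancel₀ hγ0
    linear_combination h4
  have e5 : (s + t * γ) * x 4 = 0 := by
    apply mul_left_cancel₀ hγ0
    linear_combination h5
  clear h0 h1 h2' h3 h4 h5 h hst
  by_contra hcon
  have hx' : ¬ (x 0 = 0 ∧ x 1 = 0 ∧ x 2 = 0 ∧ x 3 = 0 ∧ x 4 = 0 ∧ x 5 = 0) := by
    rintro ⟨h0, h1, h2, h3, h4, h5⟩
    apply hx
    funext i
    fin_cases i <;> assumption
  by_cases ht : t = 0
  · have hs : s ≠ 0 := fun h => hcon ⟨h, ht⟩
    subst ht
    simp only [add_zero, zero_mul] at e2 e3 e4 e5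
    exact hx' ⟨(mul_eq_zero.1 e1).resolve_left hs, (mul_eq_zero.1 e0).resolve_left hs,
      (mul_eq_zero.1 e3).resolve_left hs, (mul_eq_zero.1 e2).resolve_left hs,
      (mul_eq_zero.1 e5).resolve_left hs, (mul_eq_zero.1 e4).resolve_left hs⟩
  by_cases hs0 : s = 0
  · -- the block `(0, 1)`
    have hs1 : s + t ≠ 0 := by rw [hs0, zero_add]; exact ht
    have hs2 : s + t * γ ≠ 0 := by rw [hs0, zero_add]; exact mul_ne_zero ht hγ0
    have x3 := (mul_eq_zero.1 e2).resolve_left hs1
    have x2 := (mul_eq_zero.1 e3).resolve_left hs1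
    have x5 := (mul_eq_zero.1 e4).resolve_left hs2
    have x4 := (mul_eq_zero.1 e5).resolve_left hs2
    rw [x2, x3, x4, x5] at hf hg
    have x0 : x 0 = 0 := by
      have : x 0 ^ 2 = 0 := by linear_combination hg
      exact pow_eq_zero_iff (by norm_num) |>.1 this
    rw [x0] at hf
    have x1 : x 1 = 0 := by
      have : algebraMap k (AlgebraicClosure k) (a 1) * x 1 ^ 2 = 0 := by linear_combination hf
      exact pow_eq_zero_iff (by norm_num) |>.1 ((mul_eq_zero.1 this).resolve_left (hα 1))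
    exact hx' ⟨x0, x1, x2, x3, x4, x5⟩
  have x1 := (mul_eq_zero.1 e0).resolve_left hs0
  have x0 := (mul_eq_zero.1 e1).resolve_left hs0
  by_cases hs1 : s + t = 0
  · have hs2 : s + t * γ ≠ 0 := by
      intro h
      have h3 : t * (γ - 1) = 0 := by linear_combination h - hs1
      rcases mul_eq_zero.1 h3 with h4 | h4
      · exact ht h4
      · exact hγ1 (sub_eq_zero.1 h4)
    have x5 := (mul_eq_zero.1 e4).resolve_left hs2
    have x4 := (mul_eq_zero.1 e5).resolve_left hs2
    rw [x0, x1, x4, x5] at hf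
    rw [x0, x4, x5] at hg
    have x2 : x 2 = 0 := by
      have : x 2 ^ 2 = 0 := by linear_combination hg - hf
      exact pow_eq_zero_iff (by norm_num) |>.1 this
    rw [x2] at hf
    have x3 : x 3 = 0 := by
      have : algebraMap k (AlgebraicClosure k) (a 3) * x 3 ^ 2 = 0 := by linear_combination hf
      exact pow_eq_zero_iff (by norm_num) |>.1 ((mul_eq_zero.1 this).resolve_left (hα 3))
    exact hx' ⟨x0, x1, x2, x3, x4, x5⟩
  have x3 := (mul_eq_zero.1 e2).resolve_left hs1
  have x2 := (mul_eq_zero.1 e3).resolve_left hs1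
  rw [x0, x1, x2, x3] at hf
  rw [x0, x2, x3] at hg
  have x4 : x 4 = 0 := by
    have : x 4 ^ 2 = 0 := by linear_combination hg - γ * hf
    exact pow_eq_zero_iff (by norm_num) |>.1 this
  rw [x4] at hf
  have x5 : x 5 = 0 := by
    have : algebraMap k (AlgebraicClosure k) (a 5) * x 5 ^ 2 = 0 := by linear_combination hf
    exact pow_eq_zero_iff (by norm_num) |>.1 ((mul_eq_zero.1 this).resolve_left (hα 5))
  exact hx' ⟨x0, x1, x2, x3, x4, x5⟩

end Pool.Agent.Q84.QQ
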